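import Pool.Agent.Helper20.EP.Spec3

set_option autoImplicit false

/-! Part DIVA of the swarm EP. -/

open Polynomial

namespace Pool.Agent.Helper33.EP.DIVA

open Pool.Agent.Helper20.EP

lemma dvd_iff (m : ℕ) (hm : 1 ≤ m) (x : ℝ) : (m : ℤ) ∣ ⌊x⌋ ↔ Int.fract (x / m) < 1 / m := by
  have hm0 : (0 : ℝ) < m := by exact_mod_cast hm
  constructor
  · rintro ⟨j, hj⟩
    have h1 : Int.fract (x / m) = Int.fract x / m := by
      rw [Int.fract_eq_iff]
      refine ⟨div_nonneg (Int.fract_nonneg x) hm0.le, ?_, j, ?_⟩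
      · rw [div_lt_one hm0]
        have h2 : (1 : ℝ) ≤ m := by exact_mod_cast hm
        exact (Int.fract_lt_one x).trans_le h2
      · have h3 : x - Int.fract x = m * j := by
          rw [Int.self_sub_fract, hj]
          push_cast
          ring
        rw [← sub_div, h3]
        field_simp
    rw [h1]
    exact div_lt_div_of_pos_right (Int.fract_lt_one x) hm0
  · intro h
    refine ⟨⌊x / m⌋, ?_⟩
    rw [Int.floor_eq_iff]
    have h1 : x = m * (⌊x / m⌋ + Int.fract (x / m)) := by
      rw [Int.floor_add_fract]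
      field_simp
    have h2 := Int.fract_nonneg (x / m)
    have h3 : m * Int.fract (x / m) < 1 := by
      rw [lt_div_iff₀ hm0] at h
      linarith
    have h4 : 0 ≤ m * Int.fract (x / m) := mul_nonneg hm0.le h2
    push_cast
    constructor
    · calc (m : ℝ) * ⌊x / m⌋ ≤ m * (⌊x / m⌋ + Int.fract (x / m)) := by
            rw [mul_add]; linarith
        _ = x := h1.symm
    · calc x = m * (⌊x / m⌋ + Int.fract (x / m)) := h1
        _ < m * ⌊x / m⌋ + 1 := by rw [mul_add]; linarith

lemma cnt_eq (N : ℕ) (P : ℕ → Prop) [DecidablePred P] :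
    cnt N P = (((Finset.Icc 1 N).filter P).card : ℝ) := by
  unfold cnt
  congr

theorem main (hA : S_ALPHA) : S_DIVA := by
  classical
  intro D hD
  obtain ⟨c, M₁, hc0, hc1, h⟩ := hA D hD
  refine ⟨c, M₁, hc0, hc1, ?_⟩
  intro f N q F T M hf hN hDat hM m hm hmM
  have hm0 : (0 : ℝ) < m := by exact_mod_cast hm
  have hm1 : (1 : ℝ) ≤ m := by exact_mod_cast hm
  have h1 := h f N q F T M hf hN hDat hM m 1 N hm hmM (by omega) 0 (1 / m) (by positivity) (by
    rw [zero_add, div_le_one hm0]
    exact hm1)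
  have h2 : (((Finset.range N).filter fun n =>
      Int.fract (f.eval ((1 + n : ℕ) : ℝ) / m - 0) < 1 / (m : ℝ) - 0).card : ℝ) =
      cnt N (fun n => (m : ℤ) ∣ ⌊f.eval (n : ℝ)⌋) := by
    rw [cnt_eq]
    congr 1
    refine Finset.card_bij (fun n _ => 1 + n) ?_ ?_ ?_
    · intro n hn
      rw [Finset.mem_filter, Finset.mem_range] at hn
      refine Finset.mem_filter.2 ⟨Finset.mem_Icc.2 ⟨by omega, by omega⟩, ?_⟩
      refine (dvd_iff m hm _).2 ?_
      simpa using hn.2
    · intro a _ b _ hab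
      omega
    · intro n hn
      obtain ⟨h5, h6⟩ := Finset.mem_filter.1 hn
      rw [Finset.mem_Icc] at h5
      refine ⟨n - 1, ?_, by omega⟩
      have h3 : 1 + (n - 1) = n := by omega
      refine Finset.mem_filter.2 ⟨Finset.mem_range.2 (by omega), ?_⟩
      rw [h3, sub_zero, sub_zero]
      exact (dvd_iff m hm _).1 h6
  rw [h2, sub_zero] at h1
  have h3 : (1 : ℝ) / m * N = N / m := by ring
  rw [h3] at h1
  exact h1

end Pool.Agent.Helper33.EP.DIVA
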